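import Pool.Agent.W5h30.SR.Shift
import Pool.Agent.Y933.KG.AlgHat

/-!
# Square root cancellation in all windows of the digits of almost all real algebraic numbers

The real algebraic numbers `x` of degree `d ≥ 2` are ordered by their height `H` (the largest absolute
value of a coefficient of the minimal polynomial over the integers). For all of them, except for a
proportion `(log H) ^ (-κ)`, for all bases `b ≤ B`, all windows `s ≤ j < s + N` of places between
`δ log_b H` and `A log_b H`, and all intervals `[u, v) ⊆ [0, 1)`, the number of `j` in the window for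
which the fractional part of `b ^ j x` lies in `[u, v)` is `N (v - u)` up to an error of at most
`(log H) ^ ε` times `√(1 + N (v - u))`. Here `ε, δ > 0` are as small, and `A` and `κ` as large as we
like. So the discrepancy of every window is `N ^ (-1/2)`, up to `(log H) ^ ε`, as for random numbers,
and all words of up to `(1 - 3 ε) log_b log H` digits have asymptotically the right frequency in all
windows of length `≥ c log H`; there are about `log H` words of length `log_b log H`, so this is the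
natural limit. The same holds for the numbers `G(x)`, where `G` is a polynomial of degree between `1`
and `d - 1` with moderate coefficients.

Proof. Moments of high even order: the tests with `2 k` places of the starting files (exponential sums
over all algebraic numbers, estimated by the test of van der Corput of high order) reduce them to the
moments for a random real number, where the visits at places in a progression with difference
`log_b log H` are independent.
-/

set_option autoImplicit false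

namespace Pool.Agent.Results.MP_5b6025_nt.SquareRootDiscrepancy

open Filter Topology Polynomial

/-- the real algebraic numbers of degree `d` and height at most `H`: the real roots of the
irreducible integral polynomials of degree `d` with all coefficients at most `H` in absolute value -/
def AlgNumbers (d H : ℕ) : Set ℝ :=
  {x | ∃ P : ℤ[X], Irreducible P ∧ P.natDegree = d ∧ (∀ i, |P.coeff i| ≤ H) ∧ aeval x P = 0}

/-- for all windows `s, …, s + N - 1` of places with `lo ≤ b ^ s` and `b ^ (s + N) ≤ hi` and all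
intervals `[u, v) ⊆ [0, 1)`, the number of `i < N` such that the fractional part of `b ^ (s + i) y` lies
in `[u, v)` differs from `N (v - u)` by at most `T √(1 + N (v - u))` -/
def SquareRootBound (b : ℕ) (lo hi T y : ℝ) : Prop :=
  ∀ s N : ℕ, lo ≤ (b : ℝ) ^ s → (b : ℝ) ^ (s + N) ≤ hi → ∀ u v : ℝ, 0 ≤ u → u ≤ v → v ≤ 1 →
    |(({i : ℕ | i < N ∧ u ≤ Int.fract ((b : ℝ) ^ (s + i) * y) ∧
      Int.fract ((b : ℝ) ^ (s + i) * y) < v}.ncard : ℕ) : ℝ) - N * (v - u)| ≤
        T * √(1 + N * (v - u))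

/-- Let `d, B ≥ 2`, `δ, ε > 0` and let `A`, `κ` be arbitrary. There are `c > 0` and `H₀` such that for
all `H ≥ H₀` and all real polynomials `G` with `1 ≤ deg G < d`, with coefficients (other than the
constant one) at most `H ^ c` and leading coefficient at least `H ^ (-c)` in absolute value (for
instance `G = X`), the following holds for all real algebraic numbers `x` of degree `d` and height at
most `H`, except for a proportion of at most `(log H) ^ (-κ)` of them: in all bases `b ≤ B`, for all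
`s, N` with `b ^ s ≥ H ^ δ` and `b ^ (s + N) ≤ H ^ A` and all intervals `[u, v) ⊆ [0, 1)`, the number of
`i < N` such that the fractional part of `b ^ (s + i) G(x)` is in `[u, v)` differs from `N (v - u)` by at
most `(log H) ^ ε √(1 + N (v - u))`. -/
theorem result (d : ℕ) (hd : 2 ≤ d) (B : ℕ) (δ A ε κ : ℝ) (hδ : 0 < δ) (hε : 0 < ε) :
    ∃ c : ℝ, 0 < c ∧ ∃ H₀ : ℕ, ∀ H : ℕ, H₀ ≤ H →
      (AlgNumbers d H).Finite ∧ (AlgNumbers d H).Nonempty ∧
      ∀ G : ℝ[X], 1 ≤ G.natDegree → G.natDegree < d →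
      (∀ i, 1 ≤ i → |G.coeff i| ≤ (H : ℝ) ^ c) → (H : ℝ) ^ (-c) ≤ |G.leadingCoeff| →
      (({x ∈ AlgNumbers d H | ¬ ∀ b : ℕ, 2 ≤ b → b ≤ B →
        SquareRootBound b ((H : ℝ) ^ δ) ((H : ℝ) ^ A) ((Real.log H) ^ ε) (G.eval x)}.ncard : ℕ) : ℝ) ≤
        (Real.log H) ^ (-κ) * ((AlgNumbers d H).ncard : ℝ) := by
  classical
  obtain ⟨q, rfl⟩ : ∃ q, d = q + 2 := ⟨d - 2, by omega⟩
  obtain ⟨A', hA'⟩ : ∃ A' : ℝ, A' = max A 0 := ⟨_, rfl⟩
  have hA'0 : 0 ≤ A' := by rw [hA']; exact le_max_right _ _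
  have hAA' : A ≤ A' := by rw [hA']; exact le_max_left _ _
  -- the bound for the frequencies
  obtain ⟨K, hK⟩ : ∃ K : ℕ, K = ⌈1 + 1 + A' + (δ + 1)⌉₊ + 1 := ⟨_, rfl⟩
  have hKr : 1 + 1 + A' + (δ + 1) ≤ (K : ℝ) := by
    rw [hK]
    push_cast
    linarith [Nat.le_ceil (1 + 1 + A' + (δ + 1))]
  obtain ⟨κ0, hκ0, ρ, hρ, H1, hH1⟩ := Pool.Agent.Y933.KG.alg_hat q K (by omega) δ hδ
  -- one base
  have hbase : ∀ b : ℕ, 2 ≤ b → ∃ M0 : ℕ, ∀ M : ℕ, M0 ≤ M → ∀ (T : Finset ℝ) (y : ℝ → ℝ) (s0 : ℕ),
      T.Nonempty → (∀ l : ℤ, l ≠ 0 → |(l : ℝ)| ≤ (M : ℝ) ^ (1 + 1 + A') →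
        ‖∑ m ∈ T, Pool.Agent.H469R2.NK.e (l * (b : ℝ) ^ s0 * y m)‖ ≤ T.card * (M : ℝ) ^ (-ρ)) →
      ((T.filter (fun m => ¬ Pool.Agent.W5h30.SR.SqW b s0
        (s0 + A' / Real.log b * Real.log M) ((Real.log M) ^ ε) (y m))).card : ℝ) ≤
        (Real.log M) ^ (-(κ + 1)) * T.card := by
    intro b hb
    have hbR : (2 : ℝ) ≤ b := by exact_mod_cast hb
    have hlogb : 0 < Real.log b := Real.log_pos (by linarith)
    exact Pool.Agent.W5h30.SR.sqrt_T hb hε hρ (by rw [div_mul_cancel₀ _ hlogb.ne'])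
  choose! M0 hM0 using hbase
  have hlog : Tendsto (fun M : ℕ => Real.log (M : ℝ)) atTop atTop :=
    Real.tendsto_log_atTop.comp tendsto_natCast_atTop_atTop
  obtain ⟨H2, hH2⟩ := eventually_atTop.1 (hlog.eventually_ge_atTop ((B : ℝ) + 1))
  obtain ⟨H4, hH4⟩ := eventually_atTop.1
    (Pool.Agent.Y933.KD.VdC.ev_le (B : ℝ) 1 one_pos)
  refine ⟨κ0, hκ0, max (max H1 H2) (max (max (∑ b ∈ Finset.range (B + 1), M0 b) H4) 2),
    fun H hH => ?_⟩
  have hHa : H1 ≤ H := le_of_max_le_left (le_of_max_le_left hH)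
  have hHb : H2 ≤ H := le_of_max_le_right (le_of_max_le_left hH)
  have hHc : ∑ b ∈ Finset.range (B + 1), M0 b ≤ H :=
    le_of_max_le_left (le_of_max_le_left (le_of_max_le_right hH))
  have hHe : H4 ≤ H := le_of_max_le_right (le_of_max_le_left (le_of_max_le_right hH))
  have hHd : 2 ≤ H := le_of_max_le_right (le_of_max_le_right hH)
  have hHR : (2 : ℝ) ≤ H := by exact_mod_cast hHd
  have hH1R : (1 : ℝ) ≤ H := by linarith
  have hHp : (0 : ℝ) < H := by linarith
  have hBH : (B : ℝ) ≤ (H : ℝ) ^ (1 : ℝ) := hH4 H hHe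
  have hlogH : (B : ℝ) + 1 ≤ Real.log H := hH2 H hHb
  have hlogp : 0 < Real.log H := Real.log_pos (by linarith)
  have hfin : (AlgNumbers (q + 2) H).Finite := Pool.Agent.Y933.KG.Alg_finite q H
  obtain ⟨hAne, hkey⟩ := hH1 H hHa
  refine ⟨hfin, hAne, ?_⟩
  intro G hG1 hG2 hG3 hG4
  set T : Finset ℝ := hfin.toFinset with hT
  have hmem : ∀ x, x ∈ T ↔ x ∈ AlgNumbers (q + 2) H := fun x => by
    rw [hT, Set.Finite.mem_toFinset]
  have hTne : T.Nonempty := by
    obtain ⟨x, hx⟩ := hAne
    exact ⟨x, (hmem x).2 hx⟩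
  -- the exceptional sets
  set s0 : ℕ → ℕ := fun b => ⌈δ * Real.log H / Real.log b⌉₊ with hs0
  set Ex : ℕ → Finset ℝ := fun b => T.filter (fun x => ¬ Pool.Agent.W5h30.SR.SqW b (s0 b)
    ((s0 b : ℝ) + A' / Real.log b * Real.log H) ((Real.log H) ^ ε) (G.eval x)) with hEx
  have hExc : ∀ b ∈ Finset.Icc 2 B, ((Ex b).card : ℝ) ≤ (Real.log H) ^ (-(κ + 1)) * T.card := by
    intro b hb
    rw [Finset.mem_Icc] at hb
    have hbR : (2 : ℝ) ≤ b := by exact_mod_cast hb.1
    have hlogb : 0 < Real.log b := Real.log_pos (by linarith)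
    have hM0b : M0 b ≤ H := (Finset.single_le_sum (f := M0) (fun _ _ => Nat.zero_le _)
      (Finset.mem_range.2 (by omega))).trans hHc
    refine hM0 b hb.1 H hM0b T (fun x => G.eval x) (s0 b) hTne ?_
    intro l hl hl2
    have hbs : (0 : ℝ) < (b : ℝ) ^ s0 b := by positivity
    have hl1 : (1 : ℝ) ≤ |(l : ℝ)| := by
      have : (1 : ℤ) ≤ |l| := Int.one_le_abs hl
      exact_mod_cast this
    have hbs1 : (H : ℝ) ^ δ ≤ (b : ℝ) ^ s0 b := by
      have h1 : δ * Real.log H ≤ s0 b * Real.log b := by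
        rw [← div_le_iff₀ hlogb]
        exact Nat.le_ceil _
      rw [Real.rpow_def_of_pos hHp, ← Real.exp_log hbs, Real.log_pow]
      apply Real.exp_le_exp.2
      linarith
    have hbs2 : (b : ℝ) ^ s0 b ≤ (H : ℝ) ^ (δ + 1) := by
      have h1 : (s0 b : ℝ) * Real.log b ≤ δ * Real.log H + Real.log b := by
        have h2 : (s0 b : ℝ) ≤ δ * Real.log H / Real.log b + 1 :=
          (Nat.ceil_lt_add_one (by positivity)).le
        calc (s0 b : ℝ) * Real.log b ≤ (δ * Real.log H / Real.log b + 1) * Real.log b := by gcongr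
          _ = _ := by field_simp
      have h3 : Real.log b ≤ Real.log H := by
        apply Real.log_le_log (by linarith)
        have : (b : ℝ) ≤ B := by exact_mod_cast hb.2
        rw [Real.rpow_one] at hBH
        linarith
      rw [Real.rpow_def_of_pos hHp, ← Real.exp_log hbs, Real.log_pow]
      apply Real.exp_le_exp.2
      nlinarith
    refine hkey G hG1 (by omega) hG3 hG4 ((l : ℝ) * (b : ℝ) ^ s0 b) ?_ ?_ T hmem
    · rw [abs_mul, abs_of_pos hbs]
      nlinarith
    · rw [abs_mul, abs_of_pos hbs]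
      calc |(l : ℝ)| * (b : ℝ) ^ s0 b ≤ (H : ℝ) ^ (1 + 1 + A') * (H : ℝ) ^ (δ + 1) := by gcongr
        _ = (H : ℝ) ^ (1 + 1 + A' + (δ + 1)) := by rw [← Real.rpow_add hHp]
        _ ≤ _ := Real.rpow_le_rpow_of_exponent_le hH1R hKr
  -- the union
  have hsub : {x ∈ AlgNumbers (q + 2) H | ¬ ∀ b : ℕ, 2 ≤ b → b ≤ B →
      SquareRootBound b ((H : ℝ) ^ δ) ((H : ℝ) ^ A) ((Real.log H) ^ ε) (G.eval x)} ⊆
      ((Finset.Icc 2 B).biUnion Ex : Finset ℝ) := by
    intro x hx
    obtain ⟨hx1, hx2⟩ := hx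
    push Not at hx2
    obtain ⟨b, hb1, hb2, hbad⟩ := hx2
    rw [Finset.mem_coe, Finset.mem_biUnion]
    refine ⟨b, Finset.mem_Icc.2 ⟨hb1, hb2⟩, ?_⟩
    rw [hEx, Finset.mem_filter]
    refine ⟨(hmem x).2 hx1, fun hgood => hbad ?_⟩
    intro s N hs hsN u v hu huv hv
    have hbR : (2 : ℝ) ≤ b := by exact_mod_cast hb1
    have hlogb : 0 < Real.log b := Real.log_pos (by linarith)
    have hss : s0 b ≤ s := by
      rw [hs0]
      apply Nat.ceil_le.2
      rw [div_le_iff₀ hlogb]
      have h1 := Real.log_le_log (by positivity) hs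
      rw [Real.log_pow, Real.log_rpow hHp] at h1
      exact h1
    have hsN' : (s : ℝ) + N ≤ (s0 b : ℝ) + A' / Real.log b * Real.log H := by
      have h1 := Real.log_le_log (by positivity) hsN
      rw [Real.log_pow, Real.log_rpow hHp] at h1
      push_cast at h1
      have h2 : (s : ℝ) + N ≤ A' / Real.log b * Real.log H := by
        rw [div_mul_eq_mul_div, le_div_iff₀ hlogb]
        calc ((s : ℝ) + N) * Real.log b ≤ A * Real.log H := h1
          _ ≤ A' * Real.log H := by gcongr
      have h3 : (0 : ℝ) ≤ s0 b := Nat.cast_nonneg _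
      linarith
    have h4 := hgood s N hss hsN' u v hu huv hv
    have e1 : ({i : ℕ | i < N ∧ u ≤ Int.fract ((b : ℝ) ^ (s + i) * G.eval x) ∧
        Int.fract ((b : ℝ) ^ (s + i) * G.eval x) < v}.ncard : ℕ) =
        ((Finset.range N).filter (fun i => u ≤ Int.fract ((b : ℝ) ^ (s + i) * G.eval x) ∧
          Int.fract ((b : ℝ) ^ (s + i) * G.eval x) < v)).card := by
      rw [← Set.ncard_coe_finset]
      congr 1
      ext i
      rw [Finset.mem_coe, Finset.mem_filter, Finset.mem_range]
      rfl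
    rw [e1]
    exact h4
  have e2 : ((AlgNumbers (q + 2) H).ncard : ℝ) = T.card := by
    rw [← Set.ncard_coe_finset]
    congr 2
    ext x
    rw [Finset.mem_coe, hmem]
  rw [e2]
  have hcard : (({x ∈ AlgNumbers (q + 2) H | ¬ ∀ b : ℕ, 2 ≤ b → b ≤ B →
      SquareRootBound b ((H : ℝ) ^ δ) ((H : ℝ) ^ A) ((Real.log H) ^ ε) (G.eval x)}.ncard : ℕ) : ℝ) ≤
      ∑ b ∈ Finset.Icc 2 B, ((Ex b).card : ℝ) := by
    have h1 := Set.ncard_le_ncard hsub (Finset.finite_toSet _)
    rw [Set.ncard_coe_finset] at h1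
    have h2 : ((Finset.Icc 2 B).biUnion Ex).card ≤ ∑ b ∈ Finset.Icc 2 B, (Ex b).card :=
      Finset.card_biUnion_le
    exact_mod_cast h1.trans h2
  refine hcard.trans ((Finset.sum_le_sum hExc).trans ?_)
  rw [Finset.sum_const, nsmul_eq_mul]
  have h1 : ((Finset.Icc 2 B).card : ℝ) ≤ Real.log H := by
    have h2 : (Finset.Icc 2 B).card ≤ B + 1 := by rw [Nat.card_Icc]; omega
    have h3 : ((Finset.Icc 2 B).card : ℝ) ≤ B + 1 := by exact_mod_cast h2
    linarith
  calc ((Finset.Icc 2 B).card : ℝ) * ((Real.log H) ^ (-(κ + 1)) * T.card)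
      ≤ Real.log H * ((Real.log H) ^ (-(κ + 1)) * T.card) := by gcongr
    _ = (Real.log H) ^ (-κ) * T.card := by
        rw [← mul_assoc]
        congr 1
        nth_rw 1 [← Real.rpow_one (Real.log H)]
        rw [← Real.rpow_add hlogp]
        congr 1
        ring

end Pool.Agent.Results.MP_5b6025_nt.SquareRootDiscrepancy
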