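import Pool.Agent.W5h30.SR.Fam
import Pool.Agent.Y933.KD.Mult

/-!
# Square root cancellation in all windows of the digits of the multiples of an algebraic number

Let `ω_1, …, ω_d` be real numbers, one of which is algebraic and irrational (for instance `d = 1`, or
a basis of a real number field over `ℚ`), and let `y` be any real number. For all but
`M ^ d (log M) ^ (-κ)` of the integer vectors `m` with `1 ≤ m_j ≤ M`, for all bases `b ≤ B`, all
windows `s ≤ j < s + N` among the first `A log M` places and all intervals `[u, v) ⊆ [0, 1)`, the number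
of `j` in the window for which the fractional part of `b ^ j z`, `z = y + m_1 ω_1 + ⋯ + m_d ω_d`, lies
in `[u, v)` is `N (v - u)` up to an error of at most `(log M) ^ ε` times `√(1 + N (v - u))`. Here
`ε > 0` is as small and `A`, `κ` are as large as we like. In particular all words of up to
`(1 - 3 ε) log_b N` digits occur with asymptotically the right frequency among the first `N` digits of
almost all multiples `m ξ`, `m ≤ exp(η N)`, of every real algebraic irrational number `ξ`; this is the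
natural limit, because there are about `N` words of `log_b N` digits.

Proof. Moments of high even order: the tests with `2 k` places of the starting files (which use the
subspace theorem) reduce them to the moments for a random real number, where the visits at places in
a progression with difference `log_b log M` are independent.
-/

set_option autoImplicit false

namespace Pool.Agent.Results.MP_5b6025_nt.SquareRootMultiples

open Filter Topology

/-- for all windows `s, …, s + N - 1` of places with `s + N ≤ L` and all intervals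
`[u, v) ⊆ [0, 1)`, the number of `i < N` such that the fractional part of `b ^ (s + i) z` lies in
`[u, v)` differs from `N (v - u)` by at most `T √(1 + N (v - u))` -/
def SquareRootBound (b : ℕ) (L T z : ℝ) : Prop :=
  ∀ s N : ℕ, (s : ℝ) + N ≤ L → ∀ u v : ℝ, 0 ≤ u → u ≤ v → v ≤ 1 →
    |(({i : ℕ | i < N ∧ u ≤ Int.fract ((b : ℝ) ^ (s + i) * z) ∧
      Int.fract ((b : ℝ) ^ (s + i) * z) < v}.ncard : ℕ) : ℝ) - N * (v - u)| ≤
        T * √(1 + N * (v - u))

/-- Let `ω_1, …, ω_d` be real numbers, one of them algebraic and irrational, `B ≥ 2`, `ε > 0`, and let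
`A`, `κ` be arbitrary. There is `M₀` such that for all `M ≥ M₀` and all real `y`, for all but
`M ^ d (log M) ^ (-κ)` of the `M ^ d` integer vectors `m` with `1 ≤ m_j ≤ M`, the number
`z = y + m_1 ω_1 + ⋯ + m_d ω_d` has the following property: in all bases `b ≤ B`, for all `s, N` with
`s + N ≤ A log M` and all intervals `[u, v) ⊆ [0, 1)`, the number of `i < N` such that the fractional
part of `b ^ (s + i) z` is in `[u, v)` differs from `N (v - u)` by at most
`(log M) ^ ε √(1 + N (v - u))`. -/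
theorem result (d : ℕ) (ω : Fin d → ℝ) (j₀ : Fin d) (halg : IsAlgebraic ℚ (ω j₀))
    (hirr : Irrational (ω j₀)) (B : ℕ) (A ε κ : ℝ) (hε : 0 < ε) :
    ∃ M₀ : ℕ, ∀ M : ℕ, M₀ ≤ M → ∀ y : ℝ,
      (({m : Fin d → ℕ | (∀ j, 1 ≤ m j ∧ m j ≤ M) ∧ ¬ ∀ b : ℕ, 2 ≤ b → b ≤ B →
        SquareRootBound b (A * Real.log M) ((Real.log M) ^ ε) (y + ∑ j, m j * ω j)}.ncard : ℕ) : ℝ) ≤
        (M : ℝ) ^ d * (Real.log M) ^ (-κ) := by
  classical
  have hbase : ∀ b : ℕ, 2 ≤ b → ∃ M0 : ℕ, ∀ M : ℕ, M0 ≤ M → ∃ U : Set ℝ, MeasurableSet U ∧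
      (∀ P ∈ Pool.Agent.Y933.KD.SM ω M, P.real U ≤ (Real.log M) ^ (-(κ + 1))) ∧
      ∀ x, x ∉ U → Pool.Agent.W5h30.SR.Sq b (A * Real.log M) ((Real.log M) ^ ε) x := by
    intro b hb
    exact Pool.Agent.W5h30.SR.sqrt_family hb hε (Pool.Agent.Y933.KD.SM_prob ω)
      (fun k => Pool.Agent.Y933.KD.good_mult ω j₀ halg hirr b k A)
  choose! M0 hM0 using hbase
  have hlog : Tendsto (fun M : ℕ => Real.log (M : ℝ)) atTop atTop :=
    Real.tendsto_log_atTop.comp tendsto_natCast_atTop_atTop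
  obtain ⟨H2, hH2⟩ := eventually_atTop.1 (hlog.eventually_ge_atTop ((B : ℝ) + 1))
  refine ⟨max (∑ b ∈ Finset.range (B + 1), M0 b) (max H2 2), fun M hM y => ?_⟩
  have hMa : ∑ b ∈ Finset.range (B + 1), M0 b ≤ M := le_of_max_le_left hM
  have hMb : H2 ≤ M := le_of_max_le_left (le_of_max_le_right hM)
  have hMc : 2 ≤ M := le_of_max_le_right (le_of_max_le_right hM)
  have hMR : (2 : ℝ) ≤ M := by exact_mod_cast hMc
  have hlogM : (B : ℝ) + 1 ≤ Real.log M := hH2 M hMb
  have hlogp : 0 < Real.log M := Real.log_pos (by linarith)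
  set T : Finset (Fin d → ℕ) := Pool.Agent.Y933.KD.box d M with hT
  have hmem : ∀ m, m ∈ T ↔ ∀ j, 1 ≤ m j ∧ m j ≤ M := by
    intro m
    rw [hT]
    unfold Pool.Agent.Y933.KD.box
    rw [Fintype.mem_piFinset]
    simp only [Finset.mem_Icc]
  have hcardT : T.card = M ^ d := Pool.Agent.Y933.KD.card_box d M
  have hTne : T.Nonempty := by
    rw [← Finset.card_pos, hcardT]
    exact Nat.pow_pos (by omega)
  have hT0 : (0 : ℝ) < T.card := by exact_mod_cast hTne.card_pos
  set z : (Fin d → ℕ) → ℝ := fun m => y + ∑ j, m j * ω j with hz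
  have hzc : ∀ m, Pool.Agent.Y933.KD.comb ω y m = z m := by
    intro m
    unfold Pool.Agent.Y933.KD.comb
    rw [hz, add_comm]
  set Ex : ℕ → Finset (Fin d → ℕ) := fun b => T.filter (fun m =>
    ¬ Pool.Agent.W5h30.SR.Sq b (A * Real.log M) ((Real.log M) ^ ε) (z m)) with hEx
  have hExc : ∀ b ∈ Finset.Icc 2 B, ((Ex b).card : ℝ) ≤ (Real.log M) ^ (-(κ + 1)) * T.card := by
    intro b hb
    rw [Finset.mem_Icc] at hb
    have hM0b : M0 b ≤ M := (Finset.single_le_sum (f := M0) (fun _ _ => Nat.zero_le _)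
      (Finset.mem_range.2 (by omega))).trans hMa
    obtain ⟨U, hU, hP, hx⟩ := hM0 b hb.1 M hM0b
    have h1 := hP _ ⟨y, rfl⟩
    rw [Pool.Agent.Y933.KD.real_unif _ _ hU, ← hT, div_le_iff₀ hT0] at h1
    refine le_trans ?_ h1
    refine Nat.cast_le.2 (Finset.card_le_card fun m hm => ?_)
    rw [hEx, Finset.mem_filter] at hm
    rw [Finset.mem_filter]
    refine ⟨hm.1, ?_⟩
    by_contra hmU
    rw [hzc] at hmU
    exact hm.2 (hx _ hmU)
  have hsub : {m : Fin d → ℕ | (∀ j, 1 ≤ m j ∧ m j ≤ M) ∧ ¬ ∀ b : ℕ, 2 ≤ b → b ≤ B →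
      SquareRootBound b (A * Real.log M) ((Real.log M) ^ ε) (y + ∑ j, m j * ω j)} ⊆
      ((Finset.Icc 2 B).biUnion Ex : Finset (Fin d → ℕ)) := by
    intro m hm
    obtain ⟨hm1, hm2⟩ := hm
    push Not at hm2
    obtain ⟨b, hb1, hb2, hbad⟩ := hm2
    rw [Finset.mem_coe, Finset.mem_biUnion]
    refine ⟨b, Finset.mem_Icc.2 ⟨hb1, hb2⟩, ?_⟩
    rw [hEx, Finset.mem_filter]
    refine ⟨(hmem m).2 hm1, fun hgood => hbad ?_⟩
    intro s N hsN u v hu huv hv
    have h4 := hgood s N hsN u v hu huv hv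
    have e1 : ({i : ℕ | i < N ∧ u ≤ Int.fract ((b : ℝ) ^ (s + i) * z m) ∧
        Int.fract ((b : ℝ) ^ (s + i) * z m) < v}.ncard : ℕ) =
        ((Finset.range N).filter (fun i => u ≤ Int.fract ((b : ℝ) ^ (s + i) * z m) ∧
          Int.fract ((b : ℝ) ^ (s + i) * z m) < v)).card := by
      rw [← Set.ncard_coe_finset]
      congr 1
      ext i
      rw [Finset.mem_coe, Finset.mem_filter, Finset.mem_range]
      rfl
    change |(({i : ℕ | i < N ∧ u ≤ Int.fract ((b : ℝ) ^ (s + i) * z m) ∧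
        Int.fract ((b : ℝ) ^ (s + i) * z m) < v}.ncard : ℕ) : ℝ) - N * (v - u)| ≤ _
    rw [e1]
    exact h4
  have hcard := Set.ncard_le_ncard hsub (Finset.finite_toSet _)
  rw [Set.ncard_coe_finset] at hcard
  have hcard2 : ((Finset.Icc 2 B).biUnion Ex).card ≤ ∑ b ∈ Finset.Icc 2 B, (Ex b).card :=
    Finset.card_biUnion_le
  have hcard3 : (({m : Fin d → ℕ | (∀ j, 1 ≤ m j ∧ m j ≤ M) ∧ ¬ ∀ b : ℕ, 2 ≤ b → b ≤ B →
      SquareRootBound b (A * Real.log M) ((Real.log M) ^ ε) (y + ∑ j, m j * ω j)}.ncard : ℕ) : ℝ) ≤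
      ∑ b ∈ Finset.Icc 2 B, ((Ex b).card : ℝ) := by
    exact_mod_cast hcard.trans hcard2
  refine hcard3.trans ((Finset.sum_le_sum hExc).trans ?_)
  rw [Finset.sum_const, nsmul_eq_mul, hcardT]
  have h1 : ((Finset.Icc 2 B).card : ℝ) ≤ Real.log M := by
    have h2 : (Finset.Icc 2 B).card ≤ B + 1 := by rw [Nat.card_Icc]; omega
    have h3 : ((Finset.Icc 2 B).card : ℝ) ≤ B + 1 := by exact_mod_cast h2
    linarith
  push_cast
  calc ((Finset.Icc 2 B).card : ℝ) * ((Real.log M) ^ (-(κ + 1)) * (M : ℝ) ^ d)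
      ≤ Real.log M * ((Real.log M) ^ (-(κ + 1)) * (M : ℝ) ^ d) := by gcongr
    _ = (M : ℝ) ^ d * (Real.log M) ^ (-κ) := by
        rw [← mul_assoc, mul_comm ((M : ℝ) ^ d)]
        congr 1
        nth_rw 1 [← Real.rpow_one (Real.log M)]
        rw [← Real.rpow_add hlogp]
        congr 1
        ring

end Pool.Agent.Results.MP_5b6025_nt.SquareRootMultiples
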