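import Pool.Agent.W5h30.An.PolEq

/-!
# The digits in one-parameter families: the solutions of `P(x) = n`, the `n`-th roots of a number

Let `φ` be a function of Puiseux type at infinity, `φ(t) = P(t) + t ^ θ h(t ^ (-β))` for large `t`,
where `P` is a polynomial, `θ` is not in `{0, 1, 2, …}`, `β > 0` and `h` is analytic at `0`,
`h(0) ≠ 0`. By the theorem of Puiseux every real algebraic function near infinity is of this form (with
rational `θ`, `β`) or a polynomial. We show: for almost all integers `n`, in all bases `b ≤ B`, the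
digits of `φ(n)` between the places `(δ - θ) log_b n` (if this is positive) and `A log_b n` have the
fluctuations of random digits: in all windows of `N` places and for all intervals `[u, v)` the number of
visits of the shifted expansion to the interval is `N (v - u)` up to `(log n) ^ ε √(1 + N (v - u))`.
The same holds uniformly for `ω φ(n) + R(n)`, `1 ≤ |ω| ≤ n ^ W`, `R` a polynomial of bounded degree.

Two special cases. For every real polynomial `P` of degree at least two, for almost all `n` all the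
real solutions of `P(x) = n` have this property, from the first digit after the point on (for instance
`√n` and all roots of fixed degree; the solutions are algebraic numbers for `P ∈ ℤ[X]`). And for every
`a > 0`, `a ≠ 1`, for almost all `n` the `n`-th root of `a` has this property after the first
`(1 + δ) log_b n` digits (`a ^ (1 / n) - 1` is about `log a / n`, therefore the first `log_b n` digits
are `0` or `b - 1`).

These families of algebraic numbers have only one parameter, and the degree may grow; for almost all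
algebraic numbers of fixed degree ordered by height see `SquareRootDiscrepancy`.

Proof. All derivatives of high order of `φ` have the expected exact order of magnitude; the van der
Corput test of high order of the starting files bounds the exponential sums, and the tests with `2 k`
places reduce the moments of high order to those of a random number.
-/

set_option autoImplicit false

namespace Pool.Agent.Results.MP_5b6025_nt.ThinFamilies

open Filter Topology Polynomial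

/-- for all windows `s, …, s + N - 1` of places with `lo ≤ b ^ s` and `b ^ (s + N) ≤ hi` and all
intervals `[u, v) ⊆ [0, 1)`, the number of `i < N` such that the fractional part of `b ^ (s + i) y` lies
in `[u, v)` differs from `N (v - u)` by at most `T √(1 + N (v - u))` -/
def SquareRootBound (b : ℕ) (lo hi T y : ℝ) : Prop :=
  ∀ s N : ℕ, lo ≤ (b : ℝ) ^ s → (b : ℝ) ^ (s + N) ≤ hi → ∀ u v : ℝ, 0 ≤ u → u ≤ v → v ≤ 1 →
    |(({i : ℕ | i < N ∧ u ≤ Int.fract ((b : ℝ) ^ (s + i) * y) ∧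
      Int.fract ((b : ℝ) ^ (s + i) * y) < v}.ncard : ℕ) : ℝ) - N * (v - u)| ≤
        T * √(1 + N * (v - u))

lemma ncard_eq (b s N : ℕ) (u v y : ℝ) :
    ({i : ℕ | i < N ∧ u ≤ Int.fract ((b : ℝ) ^ (s + i) * y) ∧
      Int.fract ((b : ℝ) ^ (s + i) * y) < v}.ncard : ℕ) =
    ((Finset.range N).filter (fun i => u ≤ Int.fract ((b : ℝ) ^ (s + i) * y) ∧
      Int.fract ((b : ℝ) ^ (s + i) * y) < v)).card := by
  classical
  rw [← Set.ncard_coe_finset]
  congr 1
  ext i
  rw [Finset.mem_coe, Finset.mem_filter, Finset.mem_range]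
  rfl

/-- the general case -/
lemma general (θ β : ℝ) (h φ : ℝ → ℝ) (P : ℝ[X]) (hθ : ∀ k : ℕ, θ ≠ k) (hβ : 0 < β)
    (hh : AnalyticAt ℝ h 0) (h0 : h 0 ≠ 0)
    (hφ : ∀ᶠ t : ℝ in atTop, φ t = P.eval t + t ^ θ * h (t ^ (-β)))
    (B d : ℕ) (δ A W ε κ : ℝ) (hδ : 0 < δ) (hε : 0 < ε) :
    ∃ N₀ : ℕ, ∀ N : ℕ, N₀ ≤ N → ∀ (ω : ℝ) (R : ℝ[X]), 1 ≤ |ω| → |ω| ≤ (N : ℝ) ^ W →
      R.natDegree ≤ d →
      (({n : ℕ | N < n ∧ n ≤ 2 * N ∧ ¬ ∀ b : ℕ, 2 ≤ b → b ≤ B →
        SquareRootBound b ((N : ℝ) ^ (δ - θ)) ((N : ℝ) ^ A) ((Real.log N) ^ ε)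
          (ω * φ n + R.eval (n : ℝ))}.ncard : ℕ) : ℝ) ≤ N * (Real.log N) ^ (-κ) := by
  classical
  obtain ⟨x0, hx0, hreg⟩ := Pool.Agent.W5h30.An.regL_pk hβ hθ hh h0
  obtain ⟨q0, hq0⟩ := Pool.Agent.W5h30.An.sqrt_seq hreg B (max d P.natDegree) δ A W ε κ hδ hε
  obtain ⟨t0, ht0⟩ := eventually_atTop.1 hφ
  refine ⟨max q0 ⌈t0⌉₊, fun N hN ω R hω1 hω2 hR => ?_⟩
  have hNq : q0 ≤ N := le_of_max_le_left hN
  have hNt : t0 ≤ N := (Nat.le_ceil _).trans (by exact_mod_cast le_of_max_le_right hN)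
  have hdeg : (C ω * P + R).natDegree ≤ max d P.natDegree :=
    (natDegree_add_le _ _).trans (max_le (((natDegree_C_mul_le _ _)).trans (le_max_right _ _))
      (hR.trans (le_max_left _ _)))
  have key := hq0 N hNq ω (C ω * P + R) hdeg hω1 hω2
  refine le_trans ?_ key
  refine Nat.cast_le.2 ?_
  rw [← Set.ncard_coe_finset]
  refine Set.ncard_le_ncard ?_ (Finset.finite_toSet _)
  rintro n ⟨hn1, hn2, hn3⟩
  rw [Finset.mem_coe, Finset.mem_filter, Finset.mem_Ioc]
  refine ⟨⟨hn1, hn2⟩, fun hcon => hn3 ?_⟩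
  intro b hb1 hb2 s L hs hsL u v hu huv hv
  have hnt : t0 ≤ (n : ℝ) := hNt.trans (by exact_mod_cast hn1.le)
  have e1 : ω * φ n + R.eval (n : ℝ) =
      ω * Pool.Agent.W5h30.An.pk θ β h 0 n + (C ω * P + R).eval (n : ℝ) := by
    rw [ht0 n hnt, eval_add, eval_mul, eval_C]
    unfold Pool.Agent.W5h30.An.pk
    simp only [Pool.Agent.W5h30.An.hk, Nat.cast_zero, sub_zero]
    ring
  rw [ncard_eq, e1]
  exact hcon b hb1 hb2 s L (by rwa [neg_add_eq_sub]) hsL u v hu huv hv

/-- the solutions of `P(x) = n` of one sign -/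
lemma one_sign (P : ℝ[X]) (hP : 2 ≤ P.natDegree) (σ : ℝ) (hσ : |σ| = 1) (B : ℕ) (A ε κ : ℝ)
    (hε : 0 < ε) :
    ∃ N₀ : ℕ, ∀ N : ℕ, N₀ ≤ N →
      (({n : ℕ | N < n ∧ n ≤ 2 * N ∧ ∃ x : ℝ, 0 ≤ x ∧ P.eval x = n ∧ ¬ ∀ b : ℕ, 2 ≤ b → b ≤ B →
        SquareRootBound b 1 ((N : ℝ) ^ A) ((Real.log N) ^ ε) (σ * x)}.ncard : ℕ) : ℝ) ≤
        N * (Real.log N) ^ (-κ) := by
  classical
  rcases lt_or_ge P.leadingCoeff 0 with hlc | hlc
  · obtain ⟨t0, ht0⟩ := Pool.Agent.W5h30.An.neg_case P hP hlc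
    refine ⟨max ⌈t0⌉₊ 1, fun N hN => ?_⟩
    have hN1 : 1 ≤ N := le_of_max_le_right hN
    have hemp : {n : ℕ | N < n ∧ n ≤ 2 * N ∧ ∃ x : ℝ, 0 ≤ x ∧ P.eval x = n ∧
        ¬ ∀ b : ℕ, 2 ≤ b → b ≤ B →
        SquareRootBound b 1 ((N : ℝ) ^ A) ((Real.log N) ^ ε) (σ * x)} = ∅ := by
      ext n
      simp only [Set.mem_ofPred_eq, Set.mem_empty_iff_false, iff_false]
      rintro ⟨hn1, -, x, hx, hPx, -⟩
      have h1 := ht0 x hx
      have h2 : t0 ≤ N := (Nat.le_ceil _).trans (by exact_mod_cast le_of_max_le_left hN)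
      have h3 : (N : ℝ) < n := by exact_mod_cast hn1
      linarith
    rw [hemp, Set.ncard_empty]
    have hN1R : (1 : ℝ) ≤ N := by exact_mod_cast hN1
    have := Real.log_nonneg hN1R
    push_cast
    positivity
  · have hlc' : 0 < P.leadingCoeff := lt_of_le_of_ne hlc (by
      intro h
      have h1 := leadingCoeff_eq_zero.1 h.symm
      rw [h1, natDegree_zero] at hP
      omega)
    obtain ⟨h, hh, h0, t0, ht0⟩ := Pool.Agent.W5h30.An.pos_case P hP hlc'
    have hd : (2 : ℝ) ≤ P.natDegree := by exact_mod_cast hP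
    have hdp : (0 : ℝ) < P.natDegree := by linarith
    have hθ : ∀ k : ℕ, (1 / (P.natDegree : ℝ)) ≠ k := by
      intro k hk
      rcases Nat.eq_zero_or_pos k with rfl | hk0
      · rw [Nat.cast_zero] at hk
        exact (by positivity : (1 / (P.natDegree : ℝ)) ≠ 0) hk
      · have h1 : (1 : ℝ) ≤ k := by exact_mod_cast hk0
        rw [← hk, le_div_iff₀ hdp] at h1
        linarith
    obtain ⟨N₀, hN₀⟩ := general (1 / (P.natDegree : ℝ)) (1 / (P.natDegree : ℝ)) h
      (fun t => t ^ (1 / (P.natDegree : ℝ)) * h (t ^ (-(1 / (P.natDegree : ℝ))))) 0 hθ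
      (by positivity) hh h0 (Eventually.of_forall fun t => by simp) B 0
      (1 / (2 * (P.natDegree : ℝ))) A 0 ε κ (by positivity) hε
    refine ⟨max N₀ (max ⌈t0⌉₊ 1), fun N hN => ?_⟩
    have hN1 : 1 ≤ N := le_of_max_le_right (le_of_max_le_right hN)
    have hN1R : (1 : ℝ) ≤ N := by exact_mod_cast hN1
    have hNt : t0 ≤ N :=
      (Nat.le_ceil _).trans (by exact_mod_cast le_of_max_le_left (le_of_max_le_right hN))
    have key := hN₀ N (le_of_max_le_left hN) σ 0 (by rw [hσ]) (by rw [hσ, Real.rpow_zero]) (by simp)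
    refine le_trans ?_ key
    refine Nat.cast_le.2 (Set.ncard_le_ncard ?_ ?_)
    · rintro n ⟨hn1, hn2, x, hx, hPx, hbad⟩
      refine ⟨hn1, hn2, fun hgood => hbad ?_⟩
      intro b hb1 hb2 s L hs hsL
      have hnN : (N : ℝ) < n := by exact_mod_cast hn1
      have h3 := ht0 x hx (by rw [hPx]; linarith)
      rw [hPx] at h3
      have h4 := hgood b hb1 hb2 s L (le_trans (Real.rpow_le_one_of_one_le_of_nonpos hN1R (by
        rw [sub_nonpos]
        apply one_div_le_one_div_of_le hdp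
        linarith)) hs) hsL
      simp only [eval_zero, add_zero] at h4
      rw [← h3] at h4
      exact h4
    · exact (Set.finite_Iic (2 * N)).subset fun n hn => hn.2.1

/-- See the introduction of this file.  (1) is the general case. (2) is about the real solutions of
`P(x) = n` for a polynomial `P` of degree at least two (algebraic numbers if `P` has integer
coefficients). (3) is about the `n`-th roots of a fixed positive number `a ≠ 1`, for instance
`a = 2`. -/
theorem result :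
    (∀ (θ β : ℝ) (h φ : ℝ → ℝ) (P : ℝ[X]), (∀ k : ℕ, θ ≠ k) → 0 < β → AnalyticAt ℝ h 0 → h 0 ≠ 0 →
      (∀ᶠ t : ℝ in atTop, φ t = P.eval t + t ^ θ * h (t ^ (-β))) →
      ∀ (B d : ℕ) (δ A W ε κ : ℝ), 0 < δ → 0 < ε →
      ∃ N₀ : ℕ, ∀ N : ℕ, N₀ ≤ N → ∀ (ω : ℝ) (R : ℝ[X]), 1 ≤ |ω| → |ω| ≤ (N : ℝ) ^ W →
      R.natDegree ≤ d →
      (({n : ℕ | N < n ∧ n ≤ 2 * N ∧ ¬ ∀ b : ℕ, 2 ≤ b → b ≤ B →
        SquareRootBound b ((N : ℝ) ^ (δ - θ)) ((N : ℝ) ^ A) ((Real.log N) ^ ε)
          (ω * φ n + R.eval (n : ℝ))}.ncard : ℕ) : ℝ) ≤ N * (Real.log N) ^ (-κ)) ∧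
    (∀ P : ℝ[X], 2 ≤ P.natDegree → ∀ (B : ℕ) (A ε κ : ℝ), 0 < ε →
      ∃ N₀ : ℕ, ∀ N : ℕ, N₀ ≤ N →
      (({n : ℕ | N < n ∧ n ≤ 2 * N ∧ ∃ x : ℝ, P.eval x = n ∧ ¬ ∀ b : ℕ, 2 ≤ b → b ≤ B →
        SquareRootBound b 1 ((N : ℝ) ^ A) ((Real.log N) ^ ε) x}.ncard : ℕ) : ℝ) ≤
        N * (Real.log N) ^ (-κ)) ∧
    (∀ a : ℝ, 0 < a → a ≠ 1 → ∀ (B : ℕ) (δ A ε κ : ℝ), 0 < δ → 0 < ε →
      ∃ N₀ : ℕ, ∀ N : ℕ, N₀ ≤ N →
      (({n : ℕ | N < n ∧ n ≤ 2 * N ∧ ¬ ∀ b : ℕ, 2 ≤ b → b ≤ B →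
        SquareRootBound b ((N : ℝ) ^ (1 + δ)) ((N : ℝ) ^ A) ((Real.log N) ^ ε)
          (a ^ (1 / (n : ℝ)))}.ncard : ℕ) : ℝ) ≤ N * (Real.log N) ^ (-κ)) := by
  classical
  refine ⟨general, ?_, ?_⟩
  · intro P hP B A ε κ hε
    have hP2 : 2 ≤ (P.comp (-X)).natDegree := by
      rw [natDegree_comp, natDegree_neg, natDegree_X, mul_one]
      exact hP
    obtain ⟨N1, hN1⟩ := one_sign P hP 1 (by norm_num) B A ε (κ + 1) hε
    obtain ⟨N2, hN2⟩ := one_sign (P.comp (-X)) hP2 (-1) (by norm_num) B A ε (κ + 1) hε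
    have hlog : Tendsto (fun M : ℕ => Real.log (M : ℝ)) atTop atTop :=
      Real.tendsto_log_atTop.comp tendsto_natCast_atTop_atTop
    obtain ⟨N3, hN3⟩ := eventually_atTop.1 (hlog.eventually_ge_atTop 2)
    refine ⟨max N1 (max N2 N3), fun N hN => ?_⟩
    have k1 := hN1 N (le_of_max_le_left hN)
    have k2 := hN2 N (le_of_max_le_left (le_of_max_le_right hN))
    have k3 := hN3 N (le_of_max_le_right (le_of_max_le_right hN))
    have hlogp : 0 < Real.log N := by linarith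
    set S1 := {n : ℕ | N < n ∧ n ≤ 2 * N ∧ ∃ x : ℝ, 0 ≤ x ∧ P.eval x = n ∧
      ¬ ∀ b : ℕ, 2 ≤ b → b ≤ B →
        SquareRootBound b 1 ((N : ℝ) ^ A) ((Real.log N) ^ ε) (1 * x)} with hS1
    set S2 := {n : ℕ | N < n ∧ n ≤ 2 * N ∧ ∃ x : ℝ, 0 ≤ x ∧ (P.comp (-X)).eval x = n ∧
      ¬ ∀ b : ℕ, 2 ≤ b → b ≤ B →
        SquareRootBound b 1 ((N : ℝ) ^ A) ((Real.log N) ^ ε) (-1 * x)} with hS2
    have hf1 : S1.Finite := (Set.finite_Iic (2 * N)).subset fun n hn => hn.2.1
    have hf2 : S2.Finite := (Set.finite_Iic (2 * N)).subset fun n hn => hn.2.1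
    have hsub : {n : ℕ | N < n ∧ n ≤ 2 * N ∧ ∃ x : ℝ, P.eval x = n ∧ ¬ ∀ b : ℕ, 2 ≤ b → b ≤ B →
        SquareRootBound b 1 ((N : ℝ) ^ A) ((Real.log N) ^ ε) x} ⊆ S1 ∪ S2 := by
      rintro n ⟨hn1, hn2, x, hPx, hbad⟩
      rcases le_total 0 x with hx | hx
      · left
        exact ⟨hn1, hn2, x, hx, hPx, by rwa [one_mul]⟩
      · right
        refine ⟨hn1, hn2, -x, by linarith, ?_, by rwa [neg_one_mul, neg_neg]⟩
        rw [eval_comp, eval_neg, eval_X, neg_neg]
        exact hPx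
    have hcard := (Set.ncard_le_ncard hsub (hf1.union hf2)).trans (Set.ncard_union_le S1 S2)
    have hcard' : (({n : ℕ | N < n ∧ n ≤ 2 * N ∧ ∃ x : ℝ, P.eval x = n ∧
        ¬ ∀ b : ℕ, 2 ≤ b → b ≤ B →
        SquareRootBound b 1 ((N : ℝ) ^ A) ((Real.log N) ^ ε) x}.ncard : ℕ) : ℝ) ≤
        S1.ncard + S2.ncard := by exact_mod_cast hcard
    refine hcard'.trans ((add_le_add k1 k2).trans ?_)
    have h1 : (Real.log N) ^ (-κ) = Real.log N * (Real.log N) ^ (-(κ + 1)) := by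
      nth_rw 2 [← Real.rpow_one (Real.log N)]
      rw [← Real.rpow_add hlogp]
      congr 1
      ring
    rw [h1]
    have h2 : 0 ≤ (N : ℝ) * (Real.log N) ^ (-(κ + 1)) := by positivity
    nlinarith
  · intro a ha ha1 B δ A ε κ hδ hε
    -- `a ^ z = 1 + z h(z)`
    set g : ℝ → ℝ := fun z => Real.exp (z * Real.log a) with hg
    have hga : AnalyticAt ℝ g 0 := (analyticAt_id.mul analyticAt_const).rexp'
    have hg' : deriv g 0 ≠ 0 := by
      have h1 : HasDerivAt g (Real.exp (0 * Real.log a) * (1 * Real.log a)) 0 :=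
        ((hasDerivAt_id (0 : ℝ)).mul_const (Real.log a)).exp
      rw [h1.deriv, zero_mul, Real.exp_zero, one_mul, one_mul]
      exact Real.log_ne_zero_of_pos_of_ne_one ha ha1
    obtain ⟨p, hp⟩ := hga
    have hda : AnalyticAt ℝ (dslope g 0) 0 := ⟨_, hp.has_fpower_series_dslope_fslope⟩
    have hd0 : dslope g 0 0 ≠ 0 := by rw [dslope_same]; exact hg'
    have hgz : ∀ z, g z = 1 + z * dslope g 0 z := by
      intro z
      have h1 := sub_smul_dslope g 0 z
      have h2 : g 0 = 1 := by simp [hg]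
      rw [h2, sub_zero, smul_eq_mul] at h1
      linarith
    obtain ⟨N₀, hN₀⟩ := general (-1) 1 (dslope g 0) (fun t => a ^ (1 / t)) 1
      (fun k hk => by
        have : (0 : ℝ) ≤ k := Nat.cast_nonneg k
        linarith) one_pos hda hd0
      (by
        filter_upwards [eventually_gt_atTop 0] with t ht
        rw [eval_one, Real.rpow_neg_one, ← hgz, hg, Real.rpow_def_of_pos ha]
        simp only
        congr 1
        rw [one_div, mul_comm]) B 0 δ A 0 ε κ hδ hε
    refine ⟨N₀, fun N hN => ?_⟩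
    have key := hN₀ N hN 1 0 (by norm_num) (by rw [Real.rpow_zero]; norm_num) (by simp)
    simp only [one_mul, eval_zero, add_zero] at key
    have e1 : δ - -1 = 1 + δ := by ring
    rw [e1] at key
    exact key

end Pool.Agent.Results.MP_5b6025_nt.ThinFamilies
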